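import Pool.Agent.H27.MS.Stmts

/-!
The classes of topological conjugacy are enumerated by measurable maps.
-/

namespace MS

open TopologicalSpace MeasureTheory Filter Topology

theorem enu (hCOD : CODStmt) (hCHL : CHLStmt) (hVIE : VIEStmt) (hTRA : TRAStmt) : ENUStmt := by
  classical
  obtain ⟨Φ, hΦc, hΦs, hΦ⟩ := hCOD
  obtain ⟨hC1, hC2⟩ := hCHL
  obtain ⟨-, hV⟩ := hVIE
  obtain ⟨hT1, hT2, hT3, hT4⟩ := hTRA
  have key : ∀ (k : ℕ) (X : Z0), Set.InjOn (Φ k) ((X : NC) : Set (ℤ → ℕ)) →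
      ∃ g r, IsConj X ((X : NC).map (Φ k) (hΦc k)) (Φ k) g r := by
    intro k X hinj
    exact hC2 X _ (Φ k) X.2.1 (hΦc k).continuousOn (fun x _ n => hΦs k x n) hinj (by simp)
  have key2 : ∀ (k : ℕ) (X : Z0), Set.InjOn (Φ k) ((X : NC) : Set (ℤ → ℕ)) →
      IsMinSubshift ((X : NC).map (Φ k) (hΦc k)) ∧ ZeroEntropy ((X : NC).map (Φ k) (hΦc k)) := by
    intro k X hinj
    obtain ⟨g, r, h⟩ := key k X hinj
    exact ⟨hT1 _ _ _ _ _ h X.2.1, hT2 _ _ _ _ _ h X.2.1 X.2.2⟩
  let e : ℕ → Z0 → Z0 := fun k X =>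
    if h : Set.InjOn (Φ k) ((X : NC) : Set (ℤ → ℕ)) then
      ⟨(X : NC).map (Φ k) (hΦc k), key2 k X h⟩ else X
  refine ⟨e, ?_, ?_⟩
  · intro k
    have h1 : ∀ X : Z0, ((e k X : Z0) : NC) =
        if Set.InjOn (Φ k) ((X : NC) : Set (ℤ → ℕ)) then (X : NC).map (Φ k) (hΦc k)
        else (X : NC) := by
      intro X
      by_cases h : Set.InjOn (Φ k) ((X : NC) : Set (ℤ → ℕ))
      · simp only [e, dif_pos h, if_pos h]
      · simp only [e, dif_neg h, if_neg h]
    have h2 : Measurable fun X : Z0 => ((e k X : Z0) : NC) := by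
      have h3 : (fun X : Z0 => ((e k X : Z0) : NC)) = fun X : Z0 =>
        if Set.InjOn (Φ k) ((X : NC) : Set (ℤ → ℕ)) then (X : NC).map (Φ k) (hΦc k)
        else (X : NC) := funext h1
      rw [h3]
      refine Measurable.ite ?_ ?_ measurable_subtype_coe
      · have h4 := hV (Φ k) (hΦc k) (hΦs k)
        have h5 : Measurable fun X : Z0 => (⟨(X : NC), X.2.1⟩ : {X : NC // IsMinSubshift X}) :=
          Measurable.subtype_mk measurable_subtype_coe
        exact h5 h4
      · have h6 : Continuous fun X : NC => X.map (Φ k) (hΦc k) :=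
          (hΦc k).nonemptyCompacts_map
        exact h6.measurable.comp measurable_subtype_coe
    exact (Measurable.subtype_mk (h := fun X => (e k X).2) h2 :
      Measurable fun X => (⟨((e k X : Z0) : NC), (e k X).2⟩ : Z0))
  · intro X Y
    constructor
    · intro h
      obtain ⟨f, g, r, hf⟩ := (hC1 X Y X.2.1 Y.2.1).1 h
      obtain ⟨k, hk⟩ := hΦ X Y f g r X.2.1 hf
      refine ⟨k, ?_⟩
      have hinj : Set.InjOn (Φ k) ((X : NC) : Set (ℤ → ℕ)) := by
        intro x hx x' hx' hxx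
        rw [hk x hx, hk x' hx'] at hxx
        rw [← hf.left x hx, ← hf.left x' hx', hxx]
      apply Subtype.ext
      simp only [e, dif_pos hinj]
      apply SetLike.coe_injective
      rw [NonemptyCompacts.coe_map]
      ext y
      constructor
      · rintro ⟨x, hx, rfl⟩
        rw [hk x hx]
        exact hf.maps x hx
      · intro hy
        exact ⟨g y, hf.maps' y hy, by rw [hk _ (hf.maps' y hy), hf.right y hy]⟩
    · rintro ⟨k, hk⟩
      by_cases hinj : Set.InjOn (Φ k) ((X : NC) : Set (ℤ → ℕ))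
      · obtain ⟨g, r, h⟩ := key k X hinj
        have hY : (Y : NC) = (X : NC).map (Φ k) (hΦc k) := by
          rw [← hk]
          simp only [e, dif_pos hinj]
        refine (hC1 X Y X.2.1 Y.2.1).2 ⟨Φ k, g, r, ?_⟩
        rw [hY]
        exact h
      · have hY : Y = X := by
          rw [← hk]
          simp only [e, dif_neg hinj]
        subst hY
        refine ⟨Homeomorph.refl _, ?_⟩
        intro x x' h
        simpa using h

end MS
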