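import Pool.Agent.H27.MS.Stmts

/-!
Asymptotic invariance of the Reiter functions.
-/

namespace MS

open TopologicalSpace MeasureTheory Filter Topology

namespace InvAux

/-- the function `u` has norm at most `a` in the space of summable functions -/
def Sb (u : NC → ℝ) (a : ℝ) : Prop := ∀ s : Finset NC, ∑ Y ∈ s, |u Y| ≤ a

theorem Sb.mono {u : NC → ℝ} {a b : ℝ} (h : Sb u a) (hab : a ≤ b) : Sb u b :=
  fun s => (h s).trans hab

theorem Sb.zero : Sb (fun _ => 0) 0 := fun s => by simp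

theorem Sb.add {u v : NC → ℝ} {a b : ℝ} (h : Sb u a) (h' : Sb v b) :
    Sb (fun Y => u Y + v Y) (a + b) := by
  intro s
  calc ∑ Y ∈ s, |u Y + v Y| ≤ ∑ Y ∈ s, (|u Y| + |v Y|) :=
        Finset.sum_le_sum fun Y _ => abs_add_le _ _
    _ = ∑ Y ∈ s, |u Y| + ∑ Y ∈ s, |v Y| := Finset.sum_add_distrib
    _ ≤ a + b := add_le_add (h s) (h' s)

theorem Sb.neg {u : NC → ℝ} {a : ℝ} (h : Sb u a) : Sb (fun Y => - u Y) a := by
  intro s
  simpa using h s

theorem Sb.sub {u v : NC → ℝ} {a b : ℝ} (h : Sb u a) (h' : Sb v b) :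
    Sb (fun Y => u Y - v Y) (a + b) := by
  simpa [sub_eq_add_neg] using h.add h'.neg

theorem Sb.smul {u : NC → ℝ} {a : ℝ} (h : Sb u a) (c : ℝ) (hc : 0 ≤ c) :
    Sb (fun Y => c * u Y) (c * a) := by
  intro s
  have : ∑ Y ∈ s, |c * u Y| = c * ∑ Y ∈ s, |u Y| := by
    rw [Finset.mul_sum]
    refine Finset.sum_congr rfl fun Y _ => ?_
    rw [abs_mul, abs_of_nonneg hc]
  rw [this]
  exact mul_le_mul_of_nonneg_left (h s) hc

theorem Sb.sum {ι : Type*} (t : Finset ι) (u : ι → NC → ℝ) (a : ι → ℝ)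
    (h : ∀ i ∈ t, Sb (u i) (a i)) : Sb (fun Y => ∑ i ∈ t, u i Y) (∑ i ∈ t, a i) := by
  classical
  induction t using Finset.induction_on with
  | empty => simpa using Sb.zero
  | insert i t hi ih =>
    simp only [Finset.sum_insert hi]
    exact (h i (Finset.mem_insert_self _ _)).add
      (ih fun j hj => h j (Finset.mem_insert_of_mem hj))

theorem Sb.nonneg {u : NC → ℝ} {a : ℝ} (h : Sb u a) : 0 ≤ a := by simpa using h ∅

theorem Sb.tsum {u : NC → ℝ} {a : ℝ} (h : Sb u a) : ∑' Y, |u Y| ≤ a :=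
  Real.tsum_le_of_sum_le (fun _ => abs_nonneg _) h

theorem sb_unif (S : Set NC) : Sb (unif S) 1 := by
  classical
  intro s
  by_cases hS : S.Finite
  · have h1 : ∀ Y, |unif S Y| = if Y ∈ S then ((S.ncard : ℝ))⁻¹ else 0 := by
      intro Y
      unfold unif
      by_cases hY : Y ∈ S
      · simp [hY]
      · simp [hY]
    simp only [h1]
    rw [← Finset.sum_filter, Finset.sum_const, nsmul_eq_mul]
    have h2 : (s.filter (· ∈ S)).card ≤ S.ncard := by
      rw [← Set.ncard_coe_finset]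
      exact Set.ncard_le_ncard (by intro Y; simp) hS
    rcases Nat.eq_zero_or_pos S.ncard with h0 | h0
    · rw [h0] at h2 ⊢
      simp
    · have h3 : (0 : ℝ) < S.ncard := by exact_mod_cast h0
      rw [← div_eq_mul_inv, div_le_one h3]
      exact_mod_cast h2
  · have h0 : S.ncard = 0 := Set.Infinite.ncard hS
    have h1 : ∀ Y, |unif S Y| = 0 := by
      intro Y
      unfold unif
      simp [h0]
    simp [h1]

/-- the unnormalized level -/
noncomputable def tot (N m : ℕ) (X Y : NC) : ℝ := ∑ᶠ C ∈ Cyl X m, unif (PS N X C) Y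

theorem lev_eq (N m : ℕ) (X Y : NC) : lev N m X Y = ((Cyl X m).ncard : ℝ)⁻¹ * tot N m X Y := rfl

theorem tot_eq (N m : ℕ) (X Y : NC) (h : (Cyl X m).Finite) :
    tot N m X Y = ∑ C ∈ h.toFinset, unif (PS N X C) Y := by
  unfold tot
  rw [finsum_mem_eq_finite_toFinset_sum _ h]

theorem sb_tot (N m : ℕ) (X : NC) (h : (Cyl X m).Finite) :
    Sb (tot N m X) ((Cyl X m).ncard : ℝ) := by
  have h1 := Sb.sum h.toFinset (fun C => unif (PS N X C)) (fun _ => 1) (fun C _ => sb_unif _)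
  have h2 : (∑ _C ∈ h.toFinset, (1 : ℝ)) = ((Cyl X m).ncard : ℝ) := by
    rw [Finset.sum_const, nsmul_eq_mul, mul_one, Set.ncard_eq_toFinset_card _ h]
  rw [h2] at h1
  intro s
  have := h1 s
  simpa only [tot_eq N m X _ h] using this

theorem sb_lev (N m : ℕ) (X : NC) (h : (Cyl X m).Finite) (h1 : 1 ≤ (Cyl X m).ncard) :
    Sb (lev N m X) 1 := by
  have h2 := (sb_tot N m X h).smul ((Cyl X m).ncard : ℝ)⁻¹ (by positivity)
  have h3 : ((Cyl X m).ncard : ℝ)⁻¹ * (Cyl X m).ncard = 1 := by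
    apply inv_mul_cancel₀
    have : (0 : ℝ) < (Cyl X m).ncard := by exact_mod_cast h1
    exact this.ne'
  rw [h3] at h2
  exact h2

theorem cyl_sub {X : NC} {m : ℕ} {C : Set (ℤ → ℕ)} (h : C ∈ Cyl X m) :
    (X : Set (ℤ → ℕ)) ∩ C = C := by
  obtain ⟨x, -, rfl⟩ := h
  ext y
  simp

/-- comparison of the unnormalized levels -/
theorem sb_diff (hDEEP : DEEPStmt) (hPSI : PSIStmt) (N m : ℕ) (X X' : NC) (f g) (r : ℕ)
    (hX : IsMinSubshift X) (hf : IsConj X X' f g r) (hm : 2 * r ≤ m)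
    (h : (Cyl X m).Finite) (h' : (Cyl X' (m + r)).Finite) :
    Sb (fun Y => tot N m X Y - tot N (m + r) X' Y)
      (((Cyl X m \ Cyl X (m + 2 * r)).ncard : ℝ) +
        ((Cyl X' (m + r)).ncard - ((Cyl X m).ncard - (Cyl X m \ Cyl X (m + 2 * r)).ncard))) := by
  classical
  set A : Finset (Set (ℤ → ℕ)) := h.toFinset with hA
  set B : Finset (Set (ℤ → ℕ)) := h'.toFinset with hB
  set G : Finset (Set (ℤ → ℕ)) := A.filter (· ∈ Cyl X (m + 2 * r)) with hG
  set H : Finset (Set (ℤ → ℕ)) := G.image (fun C => f '' C) with hH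
  have hAm : ∀ C, C ∈ A ↔ C ∈ Cyl X m := fun C => by simp [hA]
  have hBm : ∀ C, C ∈ B ↔ C ∈ Cyl X' (m + r) := fun C => by simp [hB]
  have hGm : ∀ C, C ∈ G ↔ C ∈ Cyl X m ∧ C ∈ Cyl X (m + 2 * r) := fun C => by simp [hG, hAm]
  have hGA : G ⊆ A := Finset.filter_subset _ _
  have hHB : H ⊆ B := by
    intro D hD
    obtain ⟨C, hC, rfl⟩ := Finset.mem_image.1 hD
    obtain ⟨hC1, hC2⟩ := (hGm C).1 hC
    exact (hBm _).2 (hDEEP.2 X X' f g r m C hf hC1 hC2)
  have hfinj : Set.InjOn f (X : Set (ℤ → ℕ)) := by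
    intro x hx x' hx' hxx
    rw [← hf.left x hx, ← hf.left x' hx', hxx]
  have hinj : Set.InjOn (fun C : Set (ℤ → ℕ) => f '' C) (G : Set (Set (ℤ → ℕ))) := by
    intro C hC C' hC' hCC
    have hC1 := cyl_sub ((hGm C).1 (by simpa using hC)).1
    have hC2 := cyl_sub ((hGm C').1 (by simpa using hC')).1
    have hs1 : C ⊆ (X : Set (ℤ → ℕ)) := by rw [← hC1]; exact Set.inter_subset_left
    have hs2 : C' ⊆ (X : Set (ℤ → ℕ)) := by rw [← hC2]; exact Set.inter_subset_left
    exact (hfinj.image_eq_image_iff hs1 hs2).1 hCC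
  have hsum : ∀ Y, ∑ D ∈ H, unif (PS N X' D) Y = ∑ C ∈ G, unif (PS N X C) Y := by
    intro Y
    rw [hH, Finset.sum_image hinj]
    refine Finset.sum_congr rfl fun C hC => ?_
    obtain ⟨hC1, hC2⟩ := (hGm C).1 hC
    obtain ⟨hl1, hl2⟩ := hDEEP.1 X X' f g r m C hf hm hC1
    have := hPSI.2 N X X' f g r C hX hf hl1 hl2
    rw [this, cyl_sub hC1]
  have hcardG : (A \ G).card = (Cyl X m \ Cyl X (m + 2 * r)).ncard := by
    rw [← Set.ncard_coe_finset]
    congr 1
    ext C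
    simp only [Finset.coe_sdiff, Set.mem_sdiff, Finset.mem_coe, hAm, hGm]
    tauto
  have hcA : A.card = (Cyl X m).ncard := (Set.ncard_eq_toFinset_card _ h).symm
  have hcB : B.card = (Cyl X' (m + r)).ncard := (Set.ncard_eq_toFinset_card _ h').symm
  have hcH : H.card = G.card := Finset.card_image_of_injOn hinj
  have h1 : (A \ G).card + G.card = A.card := by
    rw [Finset.card_sdiff_add_card_eq_card hGA]
  have h2 : (B \ H).card + H.card = B.card := by
    rw [Finset.card_sdiff_add_card_eq_card hHB]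
  have e1 : Sb (fun Y => ∑ C ∈ A \ G, unif (PS N X C) Y) ((A \ G).card : ℝ) := by
    have := Sb.sum (A \ G) (fun C => unif (PS N X C)) (fun _ => 1) (fun C _ => sb_unif _)
    simpa using this
  have e2 : Sb (fun Y => ∑ D ∈ B \ H, unif (PS N X' D) Y) ((B \ H).card : ℝ) := by
    have := Sb.sum (B \ H) (fun D => unif (PS N X' D)) (fun _ => 1) (fun C _ => sb_unif _)
    simpa using this
  have e3 := e1.sub e2
  have e4 : (fun Y => tot N m X Y - tot N (m + r) X' Y) = fun Y =>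
      (∑ C ∈ A \ G, unif (PS N X C) Y) - ∑ D ∈ B \ H, unif (PS N X' D) Y := by
    funext Y
    rw [tot_eq N m X Y h, tot_eq N (m + r) X' Y h', ← hA, ← hB, ← Finset.sum_sdiff hGA,
      ← Finset.sum_sdiff hHB, hsum Y]
    ring
  rw [e4]
  refine e3.mono ?_
  have h1' : ((A \ G).card : ℝ) + G.card = A.card := by exact_mod_cast h1
  have h2' : ((B \ H).card : ℝ) + H.card = B.card := by exact_mod_cast h2
  have h3' : (H.card : ℝ) = G.card := by exact_mod_cast hcH
  rw [← hcardG, ← hcA, ← hcB]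
  linarith

/-- comparison of the levels -/
theorem sb_lev_diff (hDEEP : DEEPStmt) (hPSI : PSIStmt) (hCYL : CYLStmt) (N m : ℕ) (X X' : NC)
    (f g) (r : ℕ) (hX : IsMinSubshift X) (hf : IsConj X X' f g r) (hf' : IsConj X' X g f r)
    (hm : 2 * r ≤ m) :
    Sb (fun Y => lev N m X Y - lev N (m + r) X' Y)
      (4 * min 1 ((((Cyl X (m + 2 * r)).ncard : ℝ) - (Cyl X m).ncard) / (Cyl X m).ncard)) := by
  obtain ⟨hC1, hC2, hC3⟩ := hCYL
  have hfin := (hC1 X m).1
  have hfin' := (hC1 X' (m + r)).1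
  have hd := sb_diff hDEEP hPSI N m X X' f g r hX hf hm hfin hfin'
  have ha1 : (1 : ℝ) ≤ (Cyl X m).ncard := by exact_mod_cast (hC1 X m).2.1
  have hb1 : (1 : ℝ) ≤ (Cyl X' (m + r)).ncard := by exact_mod_cast (hC1 X' (m + r)).2.1
  have hab : ((Cyl X m).ncard : ℝ) ≤ (Cyl X' (m + r)).ncard := by
    exact_mod_cast hC3 X X' f g r m hf
  have hbc : ((Cyl X' (m + r)).ncard : ℝ) ≤ (Cyl X (m + 2 * r)).ncard := by
    have := hC3 X' X g f r (m + r) hf'
    have h2 : m + r + r = m + 2 * r := by ring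
    rw [h2] at this
    exact_mod_cast this
  have hg : ((Cyl X m).ncard : ℝ) + (Cyl X m \ Cyl X (m + 2 * r)).ncard ≤
      (Cyl X (m + 2 * r)).ncard := by
    exact_mod_cast hC2 X m (2 * r)
  have hg0 : (0 : ℝ) ≤ (Cyl X m \ Cyl X (m + 2 * r)).ncard := by positivity
  set a : ℝ := ((Cyl X m).ncard : ℝ) with ha
  set b : ℝ := ((Cyl X' (m + r)).ncard : ℝ) with hb
  set c : ℝ := ((Cyl X (m + 2 * r)).ncard : ℝ) with hc
  set d : ℝ := ((Cyl X m \ Cyl X (m + 2 * r)).ncard : ℝ) with hdd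
  have ha0 : 0 < a := by linarith
  have hb0 : 0 < b := by linarith
  -- first bound
  have k1 : Sb (fun Y => lev N m X Y - lev N (m + r) X' Y) (4 * ((c - a) / a)) := by
    have l1 := hd.smul a⁻¹ (by positivity)
    have l2 := (sb_tot N (m + r) X' hfin').smul (a⁻¹ - b⁻¹)
      (sub_nonneg.2 (inv_anti₀ ha0 hab))
    have l3 := l1.add l2
    have l4 : (fun Y => lev N m X Y - lev N (m + r) X' Y) = fun Y =>
        a⁻¹ * (tot N m X Y - tot N (m + r) X' Y) + (a⁻¹ - b⁻¹) * tot N (m + r) X' Y := by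
      funext Y
      rw [lev_eq, lev_eq]
      ring
    rw [l4]
    refine l3.mono ?_
    rw [← hb]
    have l5 : a⁻¹ * (d + (b - (a - d))) + (a⁻¹ - b⁻¹) * b = (2 * (b - a) + 2 * d) / a := by
      field_simp
      ring
    rw [l5, ← mul_div_assoc]
    apply div_le_div_of_nonneg_right _ ha0.le
    linarith
  have k2 : Sb (fun Y => lev N m X Y - lev N (m + r) X' Y) (4 * 1) := by
    have l1 := (sb_lev N m X hfin (hC1 X m).2.1).sub
      (sb_lev N (m + r) X' hfin' (hC1 X' (m + r)).2.1)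
    exact l1.mono (by norm_num)
  rcases min_choice (1 : ℝ) ((c - a) / a) with h | h
  · rw [h]; exact k2
  · rw [h]; exact k1

theorem shift_sum (u : ℕ → ℝ) (N r : ℕ) :
    ∑ m ∈ Finset.range N, u (m + r) - ∑ m ∈ Finset.range N, u m =
      ∑ i ∈ Finset.range r, (u (N + i) - u i) := by
  have h1 := Finset.sum_range_add u r N
  have h2 := Finset.sum_range_add u N r
  rw [add_comm r N, h2] at h1
  rw [Finset.sum_sub_distrib]
  have h3 : ∑ m ∈ Finset.range N, u (m + r) = ∑ m ∈ Finset.range N, u (r + m) :=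
    Finset.sum_congr rfl fun m _ => by rw [add_comm]
  rw [h3]
  linarith

/-- comparison of the averages -/
theorem sb_rei (hDEEP : DEEPStmt) (hPSI : PSIStmt) (hCYL : CYLStmt) (N : ℕ) (X X' : NC)
    (f g) (r : ℕ) (hX : IsMinSubshift X) (hf : IsConj X X' f g r) (hf' : IsConj X' X g f r)
    (hN : 2 * r ≤ N) :
    Sb (fun Y => Rei N X Y - Rei N X' Y)
      (4 * ((N : ℝ)⁻¹ * ∑ m ∈ Finset.range N,
        min 1 ((((Cyl X (N + m + 2 * r)).ncard : ℝ) - (Cyl X (N + m)).ncard) /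
          (Cyl X (N + m)).ncard)) + (N : ℝ)⁻¹ * (2 * r)) := by
  have h1 := Sb.sum (Finset.range N)
    (fun m Y => lev N (N + m) X Y - lev N (N + m + r) X' Y)
    (fun m => 4 * min 1 ((((Cyl X (N + m + 2 * r)).ncard : ℝ) - (Cyl X (N + m)).ncard) /
          (Cyl X (N + m)).ncard))
    (fun m _ => sb_lev_diff hDEEP hPSI hCYL N (N + m) X X' f g r hX hf hf' (by omega))
  have h2 := Sb.sum (Finset.range r)
    (fun i Y => lev N (N + (N + i)) X' Y - lev N (N + i) X' Y) (fun _ => 1 + 1)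
    (fun i _ => (sb_lev N _ X' (hCYL.1 X' _).1 (hCYL.1 X' _).2.1).sub
      (sb_lev N _ X' (hCYL.1 X' _).1 (hCYL.1 X' _).2.1))
  have h3 := (h1.smul (N : ℝ)⁻¹ (by positivity)).add (h2.smul (N : ℝ)⁻¹ (by positivity))
  have h4 : (fun Y => Rei N X Y - Rei N X' Y) = fun Y =>
      (N : ℝ)⁻¹ * ∑ m ∈ Finset.range N, (lev N (N + m) X Y - lev N (N + m + r) X' Y) +
      (N : ℝ)⁻¹ * ∑ i ∈ Finset.range r, (lev N (N + (N + i)) X' Y - lev N (N + i) X' Y) := by
    funext Y
    have h5 := shift_sum (fun m => lev N (N + m) X' Y) N r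
    rw [← h5, Finset.sum_sub_distrib]
    unfold Rei
    have h6 : ∑ m ∈ Finset.range N, lev N (N + (m + r)) X' Y =
        ∑ m ∈ Finset.range N, lev N (N + m + r) X' Y :=
      Finset.sum_congr rfl fun m _ => by rw [add_assoc]
    simp only [h6]
    ring
  rw [h4]
  refine h3.mono (le_of_eq ?_)
  rw [← Finset.mul_sum]
  simp only [Finset.sum_const, Finset.card_range, nsmul_eq_mul]
  ring

end InvAux

open InvAux in
theorem inv (hDEEP : DEEPStmt) (hPSI : PSIStmt) (hCYL : CYLStmt) (hAVG : AVGStmt)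
    (hTRA : TRAStmt) : INVStmt := by
  intro X X' f g r hX hE hf
  have hf' : IsConj X' X g f r := hTRA.2.2.1 X X' f g r hf
  have hmono : Monotone fun m => (Cyl X m).ncard := by
    apply monotone_nat_of_le_succ
    intro m
    exact le_trans (Nat.le_add_right _ _) (hCYL.2.1 X m 1)
  have hlog : Tendsto (fun m : ℕ => Real.log ((Cyl X m).ncard : ℝ) / m) atTop (𝓝 0) := by
    have h1 : Tendsto (fun m : ℕ => Real.log ((words X (2 * m + 1)).ncard : ℝ) /
        ((2 * m + 1 : ℕ) : ℝ)) atTop (𝓝 0) := by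
      have h2 : Tendsto (fun m : ℕ => 2 * m + 1) atTop atTop := by
        apply tendsto_atTop_mono (f := fun m : ℕ => m) (fun m => by omega) tendsto_id
      exact hE.comp h2
    have h3 : Tendsto (fun m : ℕ => 3 * (Real.log ((words X (2 * m + 1)).ncard : ℝ) /
        ((2 * m + 1 : ℕ) : ℝ))) atTop (𝓝 0) := by
      simpa using h1.const_mul 3
    refine squeeze_zero' ?_ ?_ h3
    · filter_upwards with m
      have : (1 : ℝ) ≤ (Cyl X m).ncard := by exact_mod_cast (hCYL.1 X m).2.1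
      have := Real.log_nonneg this
      positivity
    · filter_upwards [eventually_ge_atTop 1] with m hm
      have h4 : (1 : ℝ) ≤ (Cyl X m).ncard := by exact_mod_cast (hCYL.1 X m).2.1
      have h5 : ((Cyl X m).ncard : ℝ) ≤ (words X (2 * m + 1)).ncard := by
        exact_mod_cast (hCYL.1 X m).2.2 hX
      have h6 : Real.log ((Cyl X m).ncard : ℝ) ≤ Real.log ((words X (2 * m + 1)).ncard : ℝ) :=
        Real.log_le_log (by linarith) h5
      have h7 : 0 ≤ Real.log ((Cyl X m).ncard : ℝ) := Real.log_nonneg h4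
      have hm' : (1 : ℝ) ≤ m := by exact_mod_cast hm
      rw [← mul_div_assoc, div_le_div_iff₀ (by positivity) (by positivity)]
      push_cast
      nlinarith
  have havg := hAVG (fun m => (Cyl X m).ncard) hmono (fun m => (hCYL.1 X m).2.1) hlog (2 * r)
  have hinv : Tendsto (fun N : ℕ => (N : ℝ)⁻¹ * (2 * r)) atTop (𝓝 0) := by
    have := (tendsto_inv_atTop_nhds_zero_nat (𝕜 := ℝ)).mul_const (2 * (r : ℝ))
    simpa using this
  have hlim := (havg.const_mul 4).add hinv
  rw [mul_zero, add_zero] at hlim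
  refine squeeze_zero' ?_ ?_ hlim
  · filter_upwards with N
    exact tsum_nonneg fun Y => abs_nonneg _
  · filter_upwards [eventually_ge_atTop (2 * r)] with N hN
    exact (sb_rei hDEEP hPSI hCYL N X X' f g r hX hf hf' hN).tsum

end MS
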